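import Pool.Agent.V7H47.LB.Spec

/-!
# Lower bound for convex translation covers: the pieces NR and CR
-/

set_option autoImplicit false

open Real Set

namespace Pool.Agent.V7H88.LB

open Pool.Agent.V7H47.LB

lemma mul_cos_le {δ : ℝ} (h0 : 0 ≤ δ) (h1 : δ < π / 2) : δ * cos δ ≤ sin δ := by
  have hc : 0 < cos δ := cos_pos_of_mem_Ioo ⟨by linarith [pi_pos], h1⟩
  have := Real.le_tan h0 h1
  rw [tan_eq_sin_div_cos, le_div_iff₀ hc] at this
  exact this

/-- tangent line of `tan` -/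
lemma tan_ge {θ γ : ℝ} (h0 : 0 < θ) (h1 : θ ≤ γ) (h2 : γ < π / 2) :
    (γ - θ) / cos θ ^ 2 ≤ tan γ - tan θ := by
  have hcθ : 0 < cos θ := cos_pos_of_mem_Ioo ⟨by linarith [pi_pos], by linarith⟩
  have hcγ : 0 < cos γ := cos_pos_of_mem_Ioo ⟨by linarith [pi_pos], h2⟩
  have e1 : tan γ - tan θ = sin (γ - θ) / (cos γ * cos θ) := by
    rw [tan_eq_sin_div_cos, tan_eq_sin_div_cos, sin_sub]; field_simp
  rw [e1, div_le_div_iff₀ (by positivity) (by positivity)]
  have e2 : cos γ = cos θ * cos (γ - θ) - sin θ * sin (γ - θ) := by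
    have := cos_add θ (γ - θ)
    rwa [add_sub_cancel] at this
  have h3 := mul_cos_le (δ := γ - θ) (by linarith) (by linarith)
  have h4 : 0 ≤ sin (γ - θ) := sin_nonneg_of_nonneg_of_le_pi (by linarith) (by linarith [pi_pos])
  have h5 : 0 < sin θ := sin_pos_of_pos_of_lt_pi h0 (by linarith [pi_pos])
  have h6 : (γ - θ) * cos γ ≤ sin (γ - θ) * cos θ := by
    rw [e2]
    nlinarith [mul_nonneg (mul_nonneg (sub_nonneg.2 h1) h5.le) h4,
      mul_le_mul_of_nonneg_right h3 hcθ.le]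
  nlinarith [mul_le_mul_of_nonneg_right h6 hcθ.le]

lemma sec_sub {θ γ : ℝ} (h0 : 0 < θ) (h1 : θ ≤ γ) (h2 : γ < π / 2) :
    1 / cos γ - 1 / cos θ ≤ tan γ - tan θ := by
  have hcθ : 0 < cos θ := cos_pos_of_mem_Ioo ⟨by linarith [pi_pos], by linarith⟩
  have hcγ : 0 < cos γ := cos_pos_of_mem_Ioo ⟨by linarith [pi_pos], h2⟩
  have hs : sin θ ≤ sin γ := sin_le_sin_of_le_of_le_pi_div_two (by linarith [pi_pos]) h2.le h1
  have hsθ : sin θ ≤ 1 := sin_le_one θ
  have hsγ : sin γ ≤ 1 := sin_le_one γ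
  have q1 := sin_sq_add_cos_sq θ
  have q2 := sin_sq_add_cos_sq γ
  have h3 : (1 - sin γ) * cos θ ≤ (1 - sin θ) * cos γ := by
    refine le_of_sq_le_sq ?_ (mul_nonneg (by linarith) hcγ.le)
    have q1' : cos θ ^ 2 = 1 - sin θ ^ 2 := by linarith
    have q2' : cos γ ^ 2 = 1 - sin γ ^ 2 := by linarith
    rw [mul_pow, mul_pow, q1', q2']
    nlinarith [mul_nonneg (mul_nonneg (sub_nonneg.2 hsθ) (sub_nonneg.2 hsγ)) (sub_nonneg.2 hs)]
  rw [tan_eq_sin_div_cos, tan_eq_sin_div_cos]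
  have : 1 / cos γ - sin γ / cos γ ≤ 1 / cos θ - sin θ / cos θ := by
    rw [← sub_div, ← sub_div, div_le_div_iff₀ hcγ hcθ]
    exact h3
  linarith

/-- tangent line of `A sin - B cos` -/
lemma trig_tangent {A B x u m p : ℝ} (hm : m = B * cos x - A * sin x)
    (hp : p = A * cos x + B * sin x) (hm0 : 0 < m) (hp0 : 0 < p) (hpm : p ≤ 4 * m)
    (hu0 : -1 ≤ u) (hu1 : u ≤ 0.44) :
    -m + p * u ≤ A * sin (x + u) - B * cos (x + u) := by
  have e : A * sin (x + u) - B * cos (x + u) = -m * cos u + p * sin u := by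
    rw [sin_add, cos_add, hm, hp]; ring
  rw [e]
  have hc := Real.cos_le_one u
  rcases le_or_gt u 0 with h | h
  · have h1 : u ≤ sin u := by
      have := Real.sin_le (x := -u) (by linarith)
      rw [sin_neg] at this
      linarith
    nlinarith [mul_le_mul_of_nonneg_left h1 hp0.le, mul_le_mul_of_nonneg_left hc hm0.le]
  · have h1 : u - u ^ 3 / 6 < sin u := Real.sin_gt_sub_cube h
    have h2 := Real.cos_bound (x := u) (by rw [abs_of_pos h]; linarith)
    rw [abs_of_pos h] at h2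
    have h3 := (abs_le.1 h2).2
    have hu3 : 0 < u ^ 3 := by positivity
    have h4 : p * (u - sin u) ≤ 4 * m * (u ^ 3 / 4) := by
      calc p * (u - sin u) ≤ p * (u ^ 3 / 4) := mul_le_mul_of_nonneg_left (by linarith) hp0.le
        _ ≤ 4 * m * (u ^ 3 / 4) := mul_le_mul_of_nonneg_right hpm (by positivity)
    have h5 : m * (u ^ 2 / 2 - u ^ 4 * (5 / 96)) ≤ m * (1 - cos u) :=
      mul_le_mul_of_nonneg_left (by linarith) hm0.le
    have h6 : u ^ 3 ≤ u ^ 2 / 2 - u ^ 4 * (5 / 96) := by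
      have : 0 ≤ u ^ 2 * (1 / 2 - u - u ^ 2 * (5 / 96)) :=
        mul_nonneg (by positivity) (by nlinarith)
      nlinarith
    have h7 := mul_le_mul_of_nonneg_left h6 hm0.le
    nlinarith

/-- per pair `(γ, η)` -/
lemma pair_ge {r R θ γ η : ℝ} (hr : 0.1 ≤ r) (hR : 0 < R) (hc : cos θ = r / R) (h0 : 0 < θ)
    (h1 : θ ≤ γ) (h2 : γ < π / 2) :
    r ^ 2 * tan θ - 0.074 * R * cos η + R ^ 2 * (1 - 0.074 / r) * (γ - θ) ≤
      r ^ 2 * tan γ - 0.074 * (r / cos γ * cos η) := by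
  have hr0 : 0 < r := by linarith
  have hcγ : 0 < cos γ := cos_pos_of_mem_Ioo ⟨by linarith [pi_pos], h2⟩
  have a1 := tan_ge h0 h1 h2
  have a2 := sec_sub h0 h1 h2
  have a3 := Real.cos_le_one η
  have b1 : 0 ≤ tan γ - tan θ := le_trans (div_nonneg (by linarith) (sq_nonneg _)) a1
  have b0 : 1 / cos θ ≤ 1 / cos γ := by
    apply one_div_le_one_div_of_le hcγ
    exact cos_le_cos_of_nonneg_of_le_pi h0.le (by linarith [pi_pos]) h1
  -- sec γ cos η ≤ sec θ cos η + (tan γ - tan θ)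
  have b2 : 1 / cos γ * cos η ≤ 1 / cos θ * cos η + (tan γ - tan θ) := by
    have : (1 / cos γ - 1 / cos θ) * cos η ≤ 1 / cos γ - 1 / cos θ := by
      nlinarith
    nlinarith
  have b3 : r * (1 / cos θ) = R := by
    rw [hc]; field_simp
  have b4 : R ^ 2 * (γ - θ) ≤ r ^ 2 * (tan γ - tan θ) := by
    have := mul_le_mul_of_nonneg_left a1 (sq_nonneg r)
    refine le_trans (le_of_eq ?_) this
    rw [hc]; field_simp
  have b5 : r / cos γ * cos η ≤ R * cos η + r * (tan γ - tan θ) := by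
    have := mul_le_mul_of_nonneg_left b2 hr0.le
    calc r / cos γ * cos η = r * (1 / cos γ * cos η) := by ring
      _ ≤ r * (1 / cos θ * cos η + (tan γ - tan θ)) := this
      _ = (r * (1 / cos θ)) * cos η + r * (tan γ - tan θ) := by ring
      _ = _ := by rw [b3]
  have b6 : R ^ 2 * (1 - 0.074 / r) * (γ - θ) ≤ r ^ 2 * (1 - 0.074 / r) * (tan γ - tan θ) := by
    have h7 : 0 ≤ 1 - 0.074 / r := by
      rw [sub_nonneg, div_le_one hr0]; linarith
    have := mul_le_mul_of_nonneg_left b4 h7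
    linarith
  have b7 : r ^ 2 * (1 - 0.074 / r) * (tan γ - tan θ) =
      r ^ 2 * (tan γ - tan θ) - 0.074 * (r * (tan γ - tan θ)) := by
    field_simp
  linarith

/-- the final inequality -/
lemma final_NR {r w : ℝ} (hw1 : 0.2236 ≤ w) (hw2 : w ≤ 0.2375) (hr : r = 1 / 4 - w ^ 2) :
    0.1566 ≤ 3 * (r * w) + 3 * (r ^ 2 * ((√3 * r - w) / (2 * (1 / 2 - r))) -
      0.074 * (r / 2 + √3 / 2 * w)) + 0.111 - 0.222 * r := by
  obtain ⟨v, hv⟩ : ∃ v, v = 0.2375 - w := ⟨_, rfl⟩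
  have hv0 : 0 ≤ v := by linarith
  have hv1 : v ≤ 0.0139 := by linarith
  have hwv : w = 0.2375 - v := by linarith
  have h3 : 1.732 ≤ √3 := by
    apply Real.le_sqrt_of_sq_le; norm_num
  have hR : 0 < 1 / 2 - r := by
    rw [hr]; nlinarith only [sq_nonneg w]
  have v2 : v ^ 2 ≤ 0.0139 * v := by nlinarith only [hv0, hv1]
  have v2' : 0 ≤ v ^ 2 := sq_nonneg v
  have v3 : v ^ 3 ≤ 0.0139 * v ^ 2 := by nlinarith only [v2', hv1]
  have v3' : 0 ≤ v ^ 3 := by positivity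
  have v4 : v ^ 4 ≤ 0.0139 * v ^ 3 := by nlinarith only [v3', hv1]
  have v4' : 0 ≤ v ^ 4 := by positivity
  have v5 : v ^ 5 ≤ 0.0139 * v ^ 4 := by nlinarith only [v4', hv1]
  have v5' : 0 ≤ v ^ 5 := by positivity
  have v6 : v ^ 6 ≤ 0.0139 * v ^ 5 := by nlinarith only [v5', hv1]
  have v6' : 0 ≤ v ^ 6 := by positivity
  have hC : 0 ≤ -0.111 * (w * (2 * (1 / 2 - r))) + 3 * r ^ 3 := by
    have e : -0.111 * (w * (2 * (1 / 2 - r))) + 3 * r ^ 3 =
        (1471037781 / 262144000000)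
        + (414985947 / 1638400000) * v ^ 1
        + (-4192893 / 40960000) * v ^ 2
        + (-142299 / 128000) * v ^ 3
        + (-369 / 1280) * v ^ 4
        + (171 / 40) * v ^ 5
        + (-3 / 1) * v ^ 6 := by
      rw [hr, hwv]; ring
    rw [e]
    linarith only [hv0, v2, v2', v3, v3', v4, v4', v5, v5', v6, v6']
  have hP : 0 ≤ (3 * (r * w) - 0.111 * (r + 1.732 * w) + 0.111 - 0.222 * r - 0.1566) *
      (2 * (1 / 2 - r)) + 3 * r ^ 2 * (1.732 * r - w) := by
    have e : (3 * (r * w) - 0.111 * (r + 1.732 * w) + 0.111 - 0.222 * r - 0.1566) *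
      (2 * (1 / 2 - r)) + 3 * r ^ 2 * (1.732 * r - w) =
        (6169228773 / 65536000000000)
        + (60691336251 / 409600000000) * v ^ 1
        + (-1843521069 / 10240000000) * v ^ 2
        + (32588133 / 32000000) * v ^ 3
        + (-3366657 / 320000) * v ^ 4
        + (164043 / 10000) * v ^ 5
        + (-1299 / 250) * v ^ 6 := by
      rw [hr, hwv]; ring
    rw [e]
    linarith only [hv0, v2, v2', v3, v3', v4, v4', v5, v5', v6, v6']
  have e : 3 * (r * w) + 3 * (r ^ 2 * ((√3 * r - w) / (2 * (1 / 2 - r))) -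
      0.074 * (r / 2 + √3 / 2 * w)) + 0.111 - 0.222 * r - 0.1566 =
      (((3 * (r * w) - 0.111 * (r + 1.732 * w) + 0.111 - 0.222 * r - 0.1566) *
      (2 * (1 / 2 - r)) + 3 * r ^ 2 * (1.732 * r - w)) + (√3 - 1.732) *
      (-0.111 * (w * (2 * (1 / 2 - r))) + 3 * r ^ 3)) / (2 * (1 / 2 - r)) := by
    have hne : 2 * (1 / 2 - r) ≠ 0 := (mul_pos two_pos hR).ne'
    have hX : (√3 * r - w) / (2 * (1 / 2 - r)) * (2 * (1 / 2 - r)) = √3 * r - w :=
      div_mul_cancel₀ _ hne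
    rw [eq_div_iff hne]
    linear_combination (3 * r ^ 2) * hX
  have h4 : 0 ≤ 3 * (r * w) + 3 * (r ^ 2 * ((√3 * r - w) / (2 * (1 / 2 - r))) -
      0.074 * (r / 2 + √3 / 2 * w)) + 0.111 - 0.222 * r - 0.1566 := by
    rw [e]
    apply div_nonneg _ (by linarith only [hR])
    exact add_nonneg hP (mul_nonneg (by linarith only [h3]) hC)
  linarith only [h4]

theorem t_NR : S_NR := by
  rintro r γ₁ γ₂ γ₃ η₁ η₂ η₃ hr1 hr2 ⟨g1, g1', g2, g2', g3, g3', e1, e2, e3, hsum, c1, c2, c3⟩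
  have hr0 : 0 < r := by linarith
  obtain ⟨R, hR⟩ : ∃ R, R = 1 / 2 - r := ⟨_, rfl⟩
  obtain ⟨w, hw⟩ : ∃ w, w = √(1 / 4 - r) := ⟨_, rfl⟩
  have hR0 : 0 < R := by linarith
  have hw2 : w ^ 2 = 1 / 4 - r := by rw [hw, Real.sq_sqrt (by linarith)]
  have hw0 : 0 ≤ w := by rw [hw]; positivity
  have hwl : 0.2236 ≤ w := by
    by_contra h
    push Not at h
    have := pow_lt_pow_left₀ h hw0 (n := 2) (by norm_num)
    norm_num at this
    linarith only [this, hw2, hr2]
  have hwu : w ≤ 0.2375 := by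
    by_contra h
    push Not at h
    have := pow_lt_pow_left₀ h (by norm_num) (n := 2) (by norm_num)
    norm_num at this
    linarith only [this, hw2, hr1]
  have hc1 : r / R ≤ 1 := by rw [div_le_one hR0]; linarith
  have hc2 : 1 / 2 < r / R := by rw [lt_div_iff₀ hR0]; linarith
  obtain ⟨θ, hθ⟩ : ∃ θ, θ = arccos (r / R) := ⟨_, rfl⟩
  have hcos : cos θ = r / R := by rw [hθ]; exact Real.cos_arccos (by linarith) hc1
  have hθ0 : 0 ≤ θ := by rw [hθ]; exact Real.arccos_nonneg _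
  have hθπ : θ ≤ π := by rw [hθ]; exact Real.arccos_le_pi _
  have hsin0 : 0 ≤ sin θ := sin_nonneg_of_nonneg_of_le_pi hθ0 hθπ
  have hsin : sin θ = w / R := by
    have h1 : sin θ ^ 2 = (w / R) ^ 2 := by
      have := sin_sq_add_cos_sq θ
      rw [hcos] at this
      have h2 : (w / R) ^ 2 = 1 - (r / R) ^ 2 := by
        rw [div_pow, hw2]; field_simp; rw [hR]; ring
      rw [h2]; linarith
    exact (pow_left_inj₀ hsin0 (by positivity) (by norm_num)).1 h1
  have hθpos : 0 < θ := by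
    rcases hθ0.eq_or_lt with h | h
    · rw [← h, sin_zero] at hsin
      have : 0 < w / R := by positivity
      linarith
    · exact h
  have hθ3 : θ < π / 3 := by
    by_contra h
    push Not at h
    have := cos_le_cos_of_nonneg_of_le_pi (by positivity) hθπ h
    rw [cos_pi_div_three, hcos] at this
    linarith
  have key : ∀ γ, 0 < γ → γ < π / 2 → (1 / 2 - r) * cos γ ≤ r → θ ≤ γ := by
    intro γ h1 h2 h3
    by_contra h
    push Not at h
    have := cos_lt_cos_of_nonneg_of_le_pi h1.le hθπ h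
    rw [hcos, div_lt_iff₀ hR0, hR] at this
    linarith
  have k1 := key γ₁ g1 g1' c1
  have k2 := key γ₂ g2 g2' c2
  have k3 := key γ₃ g3 g3' c3
  obtain ⟨x, hx⟩ : ∃ x, x = π / 3 - θ := ⟨_, rfl⟩
  have hx0 : 0 < x := by linarith
  have hsx : sin x = (√3 * r - w) / (2 * R) := by
    rw [hx, sin_sub, sin_pi_div_three, cos_pi_div_three, hcos, hsin]; field_simp
  have hcx : cos x = (r + √3 * w) / (2 * R) := by
    rw [hx, cos_sub, sin_pi_div_three, cos_pi_div_three, hcos, hsin]; field_simp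
  have h3 : 1.732 ≤ √3 := by
    apply Real.le_sqrt_of_sq_le; norm_num
  have h3' : √3 ≤ 1.7321 := by
    rw [Real.sqrt_le_left (by norm_num)]; norm_num
  have hsx1 : sin x ≤ 0.206 := by
    rw [hsx, div_le_iff₀ (by positivity)]
    have h4 : √3 * r ≤ 1.7321 * 0.2 := mul_le_mul h3' hr2 hr0.le (by norm_num)
    linarith only [h4, hwl, hR, hr2]
  have hxle : x ≤ 0.22 := by
    by_contra h
    push Not at h
    have h4 : (0.22 : ℝ) - 0.22 ^ 3 / 6 < sin 0.22 := Real.sin_gt_sub_cube (by norm_num)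
    have h5 : sin 0.22 ≤ sin x :=
      sin_le_sin_of_le_of_le_pi_div_two (by linarith [pi_pos]) (by linarith [pi_gt_three]) h.le
    norm_num at h4
    linarith
  have hcx1 : 0.97 ≤ cos x := by
    have h1 := Real.one_sub_sq_div_two_le_cos (x := x)
    have h2 : x ^ 2 ≤ 0.22 ^ 2 := pow_le_pow_left₀ hx0.le hxle 2
    norm_num at h2
    linarith only [h1, h2]
  have hcx2 := Real.cos_le_one x
  have hsx0 : 0 ≤ sin x := sin_nonneg_of_nonneg_of_le_pi hx0.le (by linarith [pi_gt_three])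
  have hr4 : r ^ 2 ≤ 0.04 := by
    have := pow_le_pow_left₀ hr0.le hr2 2
    norm_num at this
    linarith only [this]
  -- tangent lines
  have hm0 : 0 < 0.074 * R * cos x - r ^ 2 * sin x := by
    have t1 : 0.074 * 0.3 * 0.97 ≤ 0.074 * R * cos x := by
      have : 0.3 ≤ R := by linarith only [hR, hr2]
      exact mul_le_mul (by linarith only [this]) hcx1 (by norm_num) (by linarith only [hR0])
    have t2 : r ^ 2 * sin x ≤ 0.04 * 0.206 := by
      exact mul_le_mul hr4 hsx1 hsx0 (by norm_num)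
    linarith only [t1, t2]
  have hp0 : 0 < r ^ 2 * cos x + 0.074 * R * sin x := by positivity
  have hpm : r ^ 2 * cos x + 0.074 * R * sin x ≤ 4 * (0.074 * R * cos x - r ^ 2 * sin x) := by
    have t1 : (0.2 * 0.444 - 0.04) * 0.97 ≤ (4 * (0.074 * R) - r ^ 2) * cos x := by
      apply mul_le_mul _ hcx1 (by norm_num) _
      · linarith only [hr4, hR, hr2]
      · linarith only [hr4, hR, hr2]
    have t2 : (4 * r ^ 2 + 0.074 * R) * sin x ≤ (4 * 0.04 + 0.074 * 0.3065) * 0.206 := by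
      apply mul_le_mul _ hsx1 hsx0 (by norm_num)
      linarith only [hr4, hR, hr1]
    linarith only [t1, t2]
  have T : ∀ η, 0 ≤ η → η ≤ 3 * x →
      -(0.074 * R * cos x - r ^ 2 * sin x) + (r ^ 2 * cos x + 0.074 * R * sin x) * (η - x) ≤
        r ^ 2 * sin η - 0.074 * R * cos η := by
    intro η h1 h2
    have := trig_tangent (A := r ^ 2) (B := 0.074 * R) (x := x) (u := η - x) rfl rfl hm0 hp0 hpm
      (by linarith) (by linarith)
    rwa [add_sub_cancel] at this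
  have hS : γ₁ + γ₂ + γ₃ + (η₁ + η₂ + η₃) = π := by linarith
  have T1 := T η₁ e1 (by linarith)
  have T2 := T η₂ e2 (by linarith)
  have T3 := T η₃ e3 (by linarith)
  have P1 := pair_ge (η := η₁) (by linarith) hR0 hcos hθpos k1 g1'
  have P2 := pair_ge (η := η₂) (by linarith) hR0 hcos hθpos k2 g2'
  have P3 := pair_ge (η := η₃) (by linarith) hR0 hcos hθpos k3 g3'
  have hbr : r ^ 2 * cos x + 0.074 * R * sin x ≤ R ^ 2 * (1 - 0.074 / r) := by
    have t1 : 0.6177 ≤ 1 - 0.074 / r := by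
      have : 0.074 / r ≤ 0.3823 := by
        rw [div_le_iff₀ hr0]; linarith
      linarith
    have t2 : 0.09 ≤ R ^ 2 := by
      have := pow_le_pow_left₀ (show (0:ℝ) ≤ 0.3 by norm_num) (show 0.3 ≤ R by linarith only [hR, hr2]) 2
      norm_num at this
      linarith only [this]
    have t3 : 0.09 * 0.6177 ≤ R ^ 2 * (1 - 0.074 / r) :=
      mul_le_mul t2 t1 (by norm_num) (by positivity)
    have t4 : r ^ 2 * cos x ≤ 0.04 * 1 := mul_le_mul hr4 hcx2 (by linarith only [hcx1]) (by norm_num)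
    have t5 : 0.074 * R * sin x ≤ 0.074 * 0.3065 * 0.206 := by
      apply mul_le_mul _ hsx1 hsx0 (by norm_num)
      linarith only [hR, hr1]
    linarith only [t3, t4, t5]
  have hbr2 := mul_le_mul_of_nonneg_right hbr
    (show 0 ≤ (γ₁ - θ) + (γ₂ - θ) + (γ₃ - θ) by linarith)
  have hη : η₁ + η₂ + η₃ - 3 * x = -((γ₁ - θ) + (γ₂ - θ) + (γ₃ - θ)) := by linarith
  have F := final_NR hwl hwu (r := r) (by linarith)
  have htan : r ^ 2 * tan θ = r * w := by
    rw [tan_eq_sin_div_cos, hsin, hcos]; field_simp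
  have F1 : r ^ 2 * sin x = r ^ 2 * ((√3 * r - w) / (2 * (1 / 2 - r))) := by rw [hsx, hR]
  have F2 : 0.074 * R * cos x = 0.074 * (r / 2 + √3 / 2 * w) := by
    rw [hcx]; field_simp
  have F3 : (r ^ 2 * cos x + 0.074 * R * sin x) * (η₁ - x) +
      (r ^ 2 * cos x + 0.074 * R * sin x) * (η₂ - x) +
      (r ^ 2 * cos x + 0.074 * R * sin x) * (η₃ - x) =
      -((r ^ 2 * cos x + 0.074 * R * sin x) * ((γ₁ - θ) + (γ₂ - θ) + (γ₃ - θ))) := by
    rw [← mul_add, ← mul_add, ← mul_neg, ← hη]; ring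
  rw [htan] at P1 P2 P3
  rw [← F1, ← F2] at F
  linarith only [T1, T2, T3, P1, P2, P3, F3, hbr2, F]

end Pool.Agent.V7H88.LB
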